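import Pool.Agent.Q306.FK.T2L.Tab
import Pool.Agent.Q306.FK.Sem

set_option autoImplicit false
set_option maxRecDepth 100000

namespace Pool.Agent.Q306.FK.T2L

open Pool.Agent.H122R2.N6 Pool.Agent.H37R3.Pen Pool.Agent.H37R3.K5

/-- the labelled structures of the objective -/
def TLS : List ℕ := [228863, 376575, 450431, 651199, 718815, 850927, 995319, 1005563, 1022973, 1041406, 1047735, 1047899, 1048173, 1048462, 1048560]

def inT (c : ℕ) : Bool := anyL TLS fun d => Nat.beq c d

/-- the test -/
def ok (n c : ℕ) : Bool := or (Nat.ble (Nat.add n (Nat.add LAM SLK)) CST) (cond (inT c) (Nat.ble (Nat.add n LAM) CST) (cond (inB c) (Nat.ble n CST) (Nat.ble (Nat.add n SLK) CST)))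

def part (b012 b013 : ℕ) : Bool := B2 fun b023 => B2 fun b123 => B2 fun b014 => B2 fun b024 => B2 fun b124 => B2 fun b034 => B2 fun b134 => B2 fun b234 => or (not (Nat.beq (tg5 b012 b013 b023 b123 b014 b024 b124 b034 b134 b234) 4)) (chkR q4 q2 ok b012 b013 b023 b123 b014 b024 b124 b034 b134 b234)

end Pool.Agent.Q306.FK.T2L
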